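import Pool.Agent.helper56.TGT.SpecR
import Pool.Agent.helper75.TGA.KGZ
import Pool.Agent.helper75.TGA.KGI

/-!
# TGT (MP_3703a7_ag), row KGT: from `PRM`, `PSJ`, `PSR`, `PJ3`, `PS3`, `CPK`, `CPM`, `GOS` to the eigenspaces of the `z_i`
(pure linear algebra; adapted from KGS of helper89)
-/

set_option autoImplicit false

namespace Pool.Agent.TGA

open Pool.Agent.TC Pool.Agent.TF Pool.Agent.CPT Pool.Agent.HC Pool.Agent.HC.SJ Pool.Agent.SJ
open Pool.Agent.TGT (tw Fr2 r1)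
open scoped TensorProduct

noncomputable section

theorem KGT (hPRM : PRM_stmt) (hPSR : PSR_stmt) (hPSJ : PSJ_stmt) (hGOS : GOS_stmt) (hEGD : EGD_stmt) (hCRC : CRC_stmt)
    (hPS3 : Pool.Agent.TGT.PS3_stmt) (hPJ3 : Pool.Agent.TGT.PJ3_stmt) (hCPM : CPM_stmt) (hCPK : CPK_stmt) : KGT_stmt := by
  intro k _ _ _ I _ _ N _ _ _ d hd hζ z B hB Q Gam hbr hcom hpol hG1 hG2 hbig hprim hpair i ξ hξ a₁ a₂ a₃ b₁ b₂ b₃ h ha₁ ha₂ ha₃ hb₁ hb₂ hb₃ hh
  classical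
  have F : ∀ i, KGY_F (d i) (z i) (B i) := fun i => KGY_F_of hEGD (hd i) (hζ i) (hB i)
  -- the representatives
  have hXe : ∀ j, ∃ X : Finset k, (∀ ξ ∈ X, IsPrimitiveRoot ξ (d j) ∧ ξ⁻¹ ∉ X) ∧ (∀ ξ, IsPrimitiveRoot ξ (d j) → ξ ∈ X ∨ ξ⁻¹ ∈ X) ∧ (j = i → ξ ∈ X) := by
    intro j
    by_cases hj : j = i
    · subst hj
      obtain ⟨X, h1, h2, h3⟩ := KGY_sel (d j) (hd j) ξ hξ
      exact ⟨X, h1, h2, fun _ => h3⟩
    · obtain ⟨ζ, hζ⟩ := hζ j
      obtain ⟨X, h1, h2, h3⟩ := KGY_sel (d j) (hd j) ζ hζ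
      exact ⟨X, h1, h2, fun h => absurd h hj⟩
  choose X hX hcov hXi using hXe
  have hξX : ξ ∈ X i := hXi i rfl
  have hcG : ∀ m ∈ Gam, ∀ i f, m i (z i f) = z i (m i f) := fun m hm i => (hG1 m hm i).1
  have honto : ∀ c : (Σ i, X i), ∀ x : KGY_E z X c →ₗ[k] KGY_E z X c, ∃ h ∈ KGY_H z B Q X, h c = x := by
    intro c
    have htop : Submodule.map (LinearMap.proj c) (KGY_H z B Q X) = ⊤ := by
      have hbrc : ∀ R ∈ Submodule.map (LinearMap.proj c) (KGY_H z B Q X), ∀ R' ∈ Submodule.map (LinearMap.proj c) (KGY_H z B Q X),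
          R ∘ₗ R' - R' ∘ₗ R ∈ Submodule.map (LinearMap.proj c) (KGY_H z B Q X) := by
        rintro _ ⟨x, hx, rfl⟩ _ ⟨y, hy, rfl⟩
        exact ⟨_, KGY_H1 z B Q X hbr x hx y hy, rfl⟩
      have hinjc : ∀ m ∈ ((fun m' : (∀ c : (Σ i, X i), KGY_E z X c →ₗ[k] KGY_E z X c) => m' c) '' KGY_G z Gam X), Function.Injective m := by
        rintro _ ⟨m', hm', rfl⟩
        exact KGY_H4 d z B F X Gam hG1 m' hm' c
      have hnormc : ∀ m ∈ ((fun m' : (∀ c : (Σ i, X i), KGY_E z X c →ₗ[k] KGY_E z X c) => m' c) '' KGY_G z Gam X),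
          ∀ R ∈ Submodule.map (LinearMap.proj c) (KGY_H z B Q X), ∃ R' ∈ Submodule.map (LinearMap.proj c) (KGY_H z B Q X), m ∘ₗ R = R' ∘ₗ m := by
        rintro _ ⟨m', hm', rfl⟩ _ ⟨x, hx, rfl⟩
        obtain ⟨x', hx', he⟩ := KGY_H5 d z B F Q X hcom Gam hG1 hG2 m' hm' x hx
        exact ⟨x' c, ⟨x', hx', rfl⟩, he c⟩
      have hprimc := fun (S : Set (Submodule k (KGY_E z X c))) (hS1 : S.Nonempty) (hS2 : ∀ X ∈ S, X ≠ ⊥) (hS3 : sSupIndep S) hS4 =>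
        KGI_prim d z X hX Gam hcG hprim c S hS1 hS2 hS3 hS4
      have hid : (LinearMap.id : KGY_E z X c →ₗ[k] KGY_E z X c) ∈ Submodule.map (LinearMap.proj c) (KGY_H z B Q X) := by
        refine ⟨_, KGY_H2 d z B F Q X hX hcov hpol (fun _ => 1), ?_⟩
        show (1 : k) • (LinearMap.id : KGY_E z X c →ₗ[k] KGY_E z X c) = LinearMap.id
        rw [one_smul]
      rcases hbig c.1 c.2 (hX c.1 c.2 c.2.2).1 with (⟨s, hs, a, b, ha, hb, hab, hsf⟩ | ⟨ε, e, γ, he, hεe, hγ0, hγ1, hpsr, s, hs, hrk, hck, hγ⟩) |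
        ⟨ε₁, ε₂, e₁, e₂, w, he₁, he₂, hfr, hw, htw, hdim, s, hs, hrk, hck, hrc⟩ | ⟨s, hs, hcop⟩
      · obtain ⟨h1, h2⟩ := KGY_H3 d z B F Q X hX hcov hpol s hs (hcom s hs.mem)
        refine hPRM k (KGY_E z X c) (Submodule.map (LinearMap.proj c) (KGY_H z B Q X)) ((fun m' : (∀ c : (Σ i, X i), KGY_E z X c →ₗ[k] KGY_E z X c) => m' c) '' KGY_G z Gam X)
          hbrc hinjc hnormc ((B c.1).flip b ∘ₗ (Module.End.eigenspace (z c.1) (c.2 : k)).subtype) ⟨a, Module.End.mem_eigenspace_iff.2 ha⟩ hab ⟨_, h1, ?_⟩ hprimc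
        refine LinearMap.ext fun f => Subtype.ext ?_
        exact hsf f (KGY_eig (z c.1) _ f)
      · obtain ⟨h1, h2⟩ := KGY_H3 d z B F Q X hX hcov hpol s hs (hcom s hs.mem)
        obtain ⟨ε', hε'⟩ : ∃ ε' : KGY_E z X c →ₗ[k] k, ε' = ε ∘ₗ (Module.End.eigenspace (z c.1) (c.2 : k)).subtype := ⟨_, rfl⟩
        obtain ⟨e', he'⟩ : ∃ e' : KGY_E z X c, (e' : N c.1) = e := ⟨⟨e, Module.End.mem_eigenspace_iff.2 he⟩, rfl⟩
        have hε'e' : ε' e' = 1 := by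
          rw [hε']
          show ε (e' : N c.1) = 1
          rw [he', hεe]
        have hpc : ∀ f : KGY_E z X c, (psr ε' e' γ f : N c.1) = psr ε e γ (f : N c.1) := by
          intro f
          rw [hε']
          show (f : N c.1) + (γ - 1) • (ε (f : N c.1) • (e' : N c.1)) = (f : N c.1) + (γ - 1) • (ε (f : N c.1) • e)
          rw [he']
        have hpn : ∀ R ∈ Submodule.map (LinearMap.proj c) (KGY_H z B Q X), ∃ R' ∈ Submodule.map (LinearMap.proj c) (KGY_H z B Q X),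
            psr ε' e' γ ∘ₗ R = R' ∘ₗ psr ε' e' γ := by
          rintro _ ⟨x, ⟨ρ, hρ, hρs, hρx⟩, rfl⟩
          obtain ⟨ρ', hρ', hρs', hρf⟩ := hpsr ρ hρ hρs
          refine ⟨KGY_r z X ρ' (hcom ρ' hρ') c, ⟨KGY_r z X ρ' (hcom ρ' hρ'), ⟨ρ', hρ', hρs', fun _ _ => rfl⟩, rfl⟩, LinearMap.ext fun f => Subtype.ext ?_⟩
          show (psr ε' e' γ (x c f) : N c.1) = ρ' c.1 (psr ε' e' γ f : N c.1)
          rw [hpc, hpc, ← hρx, hρf _ (KGY_eig (z c.1) _ f)]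
        have hsm : KGY_r z X s (hcom s hs.mem) c ∈ Submodule.map (LinearMap.proj c) (KGY_H z B Q X) := ⟨_, h1, rfl⟩
        have hrk' : Module.finrank k (LinearMap.range (KGY_r z X s (hcom s hs.mem) c)) = rkE z s c.1 (c.2 : k) := KGY_rng z X s _ c
        have hck' : Module.finrank k (LinearMap.ker (KGY_r z X s (hcom s hs.mem) c)) = ckE z s c.1 (c.2 : k) := KGY_ker z X s _ c
        have hns : ∀ x : k, KGY_r z X s (hcom s hs.mem) c ≠ x • LinearMap.id := by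
          intro x hx
          by_cases h0 : x = 0
          · rw [hx, h0, zero_smul, LinearMap.range_zero, finrank_bot] at hrk'
            exact hrk hrk'.symm
          · have hker : LinearMap.ker (KGY_r z X s (hcom s hs.mem) c) = ⊥ := by
              rw [hx, LinearMap.ker_eq_bot']
              intro f hf
              have h3 : x • f = 0 := hf
              exact (smul_eq_zero.1 h3).resolve_left h0
            rw [hker, finrank_bot] at hck'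
            exact hck hck'.symm
        have hirr := hPSJ k (KGY_E z X c) (Submodule.map (LinearMap.proj c) (KGY_H z B Q X)) ((fun m' : (∀ c : (Σ i, X i), KGY_E z X c →ₗ[k] KGY_E z X c) => m' c) '' KGY_G z Gam X)
          hbrc hinjc hnormc ε' e' γ hε'e' hγ0 hγ1 hpn ⟨_, hsm, hns⟩ hprimc
        refine hPSR k (KGY_E z X c) (Submodule.map (LinearMap.proj c) (KGY_H z B Q X)) hbrc hid hirr ε' e' γ hε'e' hγ0 hγ1 hpn fun hγm => ?_
        obtain ⟨h3, h4⟩ := hγ hγm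
        refine ⟨h4, _, hsm, h2 c, ?_, ?_, ?_⟩
        · rw [hrk']
          exact hrk
        · rw [hck']
          exact hck
        · rw [hrk', hck']
          exact h3
      · obtain ⟨h1, h2⟩ := KGY_H3 d z B F Q X hX hcov hpol s hs (hcom s hs.mem)
        obtain ⟨ε₁', hε₁'⟩ : ∃ ε' : KGY_E z X c →ₗ[k] k, ε' = ε₁ ∘ₗ (Module.End.eigenspace (z c.1) (c.2 : k)).subtype := ⟨_, rfl⟩
        obtain ⟨ε₂', hε₂'⟩ : ∃ ε' : KGY_E z X c →ₗ[k] k, ε' = ε₂ ∘ₗ (Module.End.eigenspace (z c.1) (c.2 : k)).subtype := ⟨_, rfl⟩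
        obtain ⟨e₁', he₁'⟩ : ∃ e' : KGY_E z X c, (e' : N c.1) = e₁ := ⟨⟨e₁, Module.End.mem_eigenspace_iff.2 he₁⟩, rfl⟩
        obtain ⟨e₂', he₂'⟩ : ∃ e' : KGY_E z X c, (e' : N c.1) = e₂ := ⟨⟨e₂, Module.End.mem_eigenspace_iff.2 he₂⟩, rfl⟩
        have hfr' : Fr2 ε₁' ε₂' e₁' e₂' := by
          refine ⟨?_, ?_, ?_, ?_⟩
          · rw [hε₁']
            show ε₁ (e₁' : N c.1) = 1
            rw [he₁', hfr.a11]
          · rw [hε₁']
            show ε₁ (e₂' : N c.1) = 0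
            rw [he₂', hfr.a12]
          · rw [hε₂']
            show ε₂ (e₁' : N c.1) = 0
            rw [he₁', hfr.a21]
          · rw [hε₂']
            show ε₂ (e₂' : N c.1) = 1
            rw [he₂', hfr.a22]
        have hpc : ∀ f : KGY_E z X c, (tw ε₁' ε₂' e₁' e₂' w f : N c.1) = tw ε₁ ε₂ e₁ e₂ w (f : N c.1) := by
          intro f
          rw [hε₁', hε₂']
          show (f : N c.1) + (w - 1) • (ε₁ (f : N c.1) • (e₁' : N c.1)) + (w ^ 2 - 1) • (ε₂ (f : N c.1) • (e₂' : N c.1)) =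
            (f : N c.1) + (w - 1) • (ε₁ (f : N c.1) • e₁) + (w ^ 2 - 1) • (ε₂ (f : N c.1) • e₂)
          rw [he₁', he₂']
        have hpn : ∀ R ∈ Submodule.map (LinearMap.proj c) (KGY_H z B Q X), ∃ R' ∈ Submodule.map (LinearMap.proj c) (KGY_H z B Q X),
            tw ε₁' ε₂' e₁' e₂' w ∘ₗ R = R' ∘ₗ tw ε₁' ε₂' e₁' e₂' w := by
          rintro _ ⟨x, ⟨ρ, hρ, hρs, hρx⟩, rfl⟩
          obtain ⟨ρ', hρ', hρs', hρf⟩ := htw ρ hρ hρs
          refine ⟨KGY_r z X ρ' (hcom ρ' hρ') c, ⟨KGY_r z X ρ' (hcom ρ' hρ'), ⟨ρ', hρ', hρs', fun _ _ => rfl⟩, rfl⟩, LinearMap.ext fun f => Subtype.ext ?_⟩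
          show (tw ε₁' ε₂' e₁' e₂' w (x c f) : N c.1) = ρ' c.1 (tw ε₁' ε₂' e₁' e₂' w f : N c.1)
          rw [hpc, hpc, ← hρx, hρf _ (KGY_eig (z c.1) _ f)]
        have hsm : KGY_r z X s (hcom s hs.mem) c ∈ Submodule.map (LinearMap.proj c) (KGY_H z B Q X) := ⟨_, h1, rfl⟩
        have hrk' : Module.finrank k (LinearMap.range (KGY_r z X s (hcom s hs.mem) c)) = rkE z s c.1 (c.2 : k) := KGY_rng z X s _ c
        have hck' : Module.finrank k (LinearMap.ker (KGY_r z X s (hcom s hs.mem) c)) = ckE z s c.1 (c.2 : k) := KGY_ker z X s _ c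
        have hex : ∃ s' ∈ Submodule.map (LinearMap.proj c) (KGY_H z B Q X), s' ∘ₗ s' = s' ∧ Module.finrank k (LinearMap.range s') ≠ 0 ∧
            Module.finrank k (LinearMap.ker s') ≠ 0 ∧ Module.finrank k (LinearMap.range s') ≠ Module.finrank k (LinearMap.ker s') := by
          refine ⟨_, hsm, h2 c, ?_, ?_, ?_⟩
          · rw [hrk']
            exact hrk
          · rw [hck']
            exact hck
          · rw [hrk', hck']
            exact hrc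
        have hlie : Pool.Agent.TGT.LieQ (Submodule.map (LinearMap.proj c : _ →ₗ[k] (KGY_E z X c →ₗ[k] KGY_E z X c)) (KGY_H z B Q X)) := hbrc
        have hirr := hPJ3 k (KGY_E z X c) _ ((fun m' : (∀ c : (Σ i, X i), KGY_E z X c →ₗ[k] KGY_E z X c) => m' c) '' KGY_G z Gam X)
          hlie hinjc hnormc ε₁' ε₂' e₁' e₂' w hfr' hw hpn hex hprimc
        exact hPS3 k (KGY_E z X c) _ hlie hid hirr ε₁' ε₂' e₁' e₂' w hfr' hw hpn hdim hex
      · obtain ⟨h1, h2⟩ := KGY_H3 d z B F Q X hX hcov hpol s hs (hcom s hs.mem)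
        have hsm : KGY_r z X s (hcom s hs.mem) c ∈ Submodule.map (LinearMap.proj c) (KGY_H z B Q X) := ⟨_, h1, rfl⟩
        have hrk' : Module.finrank k (LinearMap.range (KGY_r z X s (hcom s hs.mem) c)) = rkE z s c.1 (c.2 : k) := KGY_rng z X s _ c
        have hcop' : Nat.Coprime (Module.finrank k (LinearMap.range (KGY_r z X s (hcom s hs.mem) c))) (Module.finrank k (KGY_E z X c)) := by
          rw [hrk']
          exact hcop
        have hirr := hCPK k (KGY_E z X c) (Submodule.map (LinearMap.proj c) (KGY_H z B Q X)) ((fun m' : (∀ c : (Σ i, X i), KGY_E z X c →ₗ[k] KGY_E z X c) => m' c) '' KGY_G z Gam X)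
          hbrc hinjc hnormc _ hsm (h2 c) hcop' hprimc
        exact hCPM k (KGY_E z X c) (Submodule.map (LinearMap.proj c) (KGY_H z B Q X)) hbrc hid hirr _ hsm (h2 c) hcop'
    intro x
    have hx : x ∈ Submodule.map (LinearMap.proj c) (KGY_H z B Q X) := by
      rw [htop]
      trivial
    obtain ⟨h', hh', he⟩ := hx
    exact ⟨h', hh', he⟩
  have key := hGOS k (Σ i, X i) (fun c => KGY_E z X c) (KGY_H z B Q X) (KGY_G z Gam X)
    (fun x hx y hy => KGY_H1 z B Q X hbr x hx y hy) (fun a => KGY_H2 d z B F Q X hX hcov hpol a)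
    (fun m hm c => KGY_H4 d z B F X Gam hG1 m hm c) (fun m hm x hx => KGY_H5 d z B F Q X hcom Gam hG1 hG2 m hm x hx)
    honto ?_ ⟨i, ⟨ξ, hξX⟩⟩
  · have hC : ∀ a b : N i, z i a = ξ • a → z i b = ξ⁻¹ • b → circ (B i) a b ∈ KGX_C (d i) (z i) ξ := fun a b ha hb => KGX_circ hEGD hCRC (hd i) (hB i) hξ ha hb
    have hCs := (hCRC k (N i) (d i) (z i) (B i) (hB i)).2.1
    have hhC : h ∈ KGX_C (d i) (z i) ξ := by
      rw [hh]
      exact sub_mem (KGX_comp (hC a₁ b₁ ha₁ hb₁) (hC a₂ b₂ ha₂ hb₂)) (KGX_comp (hC a₂ b₂ ha₂ hb₂) (hC a₁ b₁ ha₁ hb₁))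
    have hhs : ∀ f g, B i (h f) g + B i f (h g) = 0 := by
      intro f g
      rw [hh]
      show B i (circ (B i) a₁ b₁ (circ (B i) a₂ b₂ f) - circ (B i) a₂ b₂ (circ (B i) a₁ b₁ f)) g + B i f (circ (B i) a₁ b₁ (circ (B i) a₂ b₂ g) - circ (B i) a₂ b₂ (circ (B i) a₁ b₁ g)) = 0
      rw [map_sub, map_sub, LinearMap.sub_apply]
      linear_combination hCs a₁ b₁ (circ (B i) a₂ b₂ f) g - hCs a₂ b₂ (circ (B i) a₁ b₁ f) g + hCs a₁ b₁ f (circ (B i) a₂ b₂ g) - hCs a₂ b₂ f (circ (B i) a₁ b₁ g)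
    have htr : LinearMap.trace k (Module.End.eigenspace (z i) ξ) (KGY_res (z i) h hhC.1 ξ) = 0 := by
      have h1 : KGY_res (z i) h hhC.1 ξ = KGY_res (z i) _ (hC a₁ b₁ ha₁ hb₁).1 ξ * KGY_res (z i) _ (hC a₂ b₂ ha₂ hb₂).1 ξ -
          KGY_res (z i) _ (hC a₂ b₂ ha₂ hb₂).1 ξ * KGY_res (z i) _ (hC a₁ b₁ ha₁ hb₁).1 ξ := by
        refine LinearMap.ext fun f => Subtype.ext ?_
        show h f = _
        rw [hh]
        rfl
      rw [h1, map_sub, LinearMap.trace_mul_comm, sub_self]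
    obtain ⟨y, ⟨ρ, hρ, hρs, hρy⟩, hy1, hy2⟩ := key (KGY_res (z i) h hhC.1 ξ) htr
    obtain ⟨y', ⟨ρ', hρ', hρs', hρy'⟩, hy1'⟩ := honto ⟨i, ⟨ξ, hξX⟩⟩ (KGY_res (z i) _ (hC a₃ b₃ ha₃ hb₃).1 ξ)
    have hKD : ∀ (j : I) (R R' : N j →ₗ[k] N j), (∀ f, R (z j f) = z j (R f)) → (∀ f, R' (z j f) = z j (R' f)) → (∀ f g, B j (R f) g + B j f (R g) = 0) → (∀ f g, B j (R' f) g + B j f (R' g) = 0) →
        (∀ ξ ∈ X j, ∀ f, z j f = ξ • f → R f = R' f) → R = R' := fun j R R' c1 c2 s1 s2 h1 =>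
      KGY_det (hB j) (F j).span (F j).E3 (F j).E5 (X j) (hcov j) R R' c1 c2 s1 s2 h1
    have hne : ∀ ξ' ∈ X i, ξ' ≠ ξ → ∀ R ∈ KGX_C (d i) (z i) ξ, ∀ f, z i f = ξ' • f → R f = 0 := by
      intro ξ' hξ' hn R hR f hf
      refine hR.2 ξ' (hX i ξ' hξ').1 hn (fun h1 => ?_) f hf
      exact (hX i ξ hξX).2 (by rw [← h1]; exact hξ')
    have hρ1 : ∀ f, z i f = ξ • f → ρ i f = h f := by
      intro f hf
      have h1 := hρy ⟨i, ⟨ξ, hξX⟩⟩ ⟨f, Module.End.mem_eigenspace_iff.2 hf⟩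
      rw [hy1] at h1
      exact h1
    have hρ1' : ∀ f, z i f = ξ • f → ρ' i f = circ (B i) a₃ b₃ f := by
      intro f hf
      have h1 := hρy' ⟨i, ⟨ξ, hξX⟩⟩ ⟨f, Module.End.mem_eigenspace_iff.2 hf⟩
      rw [hy1'] at h1
      exact h1
    have hρ2 : ∀ (j : I) (ξ' : k) (hξ' : ξ' ∈ X j), (⟨j, ⟨ξ', hξ'⟩⟩ : Σ i, X i) ≠ ⟨i, ⟨ξ, hξX⟩⟩ → ∀ f, z j f = ξ' • f → ρ j f = 0 := by
      intro j ξ' hξ' hn f hf
      have h1 := hρy ⟨j, ⟨ξ', hξ'⟩⟩ ⟨f, Module.End.mem_eigenspace_iff.2 hf⟩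
      rw [hy2 _ hn] at h1
      exact h1
    have hρi : ρ i = h := by
      refine hKD i _ _ (hcom ρ hρ i) hhC.1 (hρs i) hhs fun ξ' hξ' f hf => ?_
      by_cases h1 : ξ' = ξ
      · subst h1
        exact hρ1 f hf
      · rw [hne ξ' hξ' h1 h hhC f hf]
        refine hρ2 i ξ' hξ' (fun h2 => h1 ?_) f hf
        obtain ⟨-, h3⟩ := Sigma.mk.inj_iff.mp h2
        exact congrArg Subtype.val (eq_of_heq h3)
    refine ⟨ρ, hρ, ρ', hρ', ?_, fun j hj => ?_⟩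
    · rw [hρi]
      have hC₃ := hC a₃ b₃ ha₃ hb₃
      refine hKD i _ _ (fun f => ?_) (sub_mem (KGX_comp hhC hC₃) (KGX_comp hC₃ hhC)).1 (fun f g => ?_) (fun f g => ?_) fun ξ' hξ' f hf => ?_
      · show h (ρ' i (z i f)) - ρ' i (h (z i f)) = z i (h (ρ' i f) - ρ' i (h f))
        rw [hcom ρ' hρ', hhC.1, hhC.1, hcom ρ' hρ', map_sub]
      · show B i (h (ρ' i f) - ρ' i (h f)) g + B i f (h (ρ' i g) - ρ' i (h g)) = 0
        rw [map_sub, map_sub, LinearMap.sub_apply]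
        linear_combination hhs (ρ' i f) g - hρs' i (h f) g + hhs f (ρ' i g) - hρs' i f (h g)
      · show B i (h (circ (B i) a₃ b₃ f) - circ (B i) a₃ b₃ (h f)) g + B i f (h (circ (B i) a₃ b₃ g) - circ (B i) a₃ b₃ (h g)) = 0
        rw [map_sub, map_sub, LinearMap.sub_apply]
        linear_combination hhs (circ (B i) a₃ b₃ f) g - hCs a₃ b₃ (h f) g + hhs f (circ (B i) a₃ b₃ g) - hCs a₃ b₃ f (h g)
      · show h (ρ' i f) - ρ' i (h f) = h (circ (B i) a₃ b₃ f) - circ (B i) a₃ b₃ (h f)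
        by_cases h1 : ξ' = ξ
        · subst h1
          rw [hρ1' f hf, hρ1' (h f) (by rw [← hhC.1, hf, map_smul])]
        · rw [hne ξ' hξ' h1 h hhC f hf, hne ξ' hξ' h1 _ hC₃ f hf, hne ξ' hξ' h1 h hhC (ρ' i f) (by rw [← hcom ρ' hρ', hf, map_smul]), map_zero, map_zero, map_zero]
    · refine hKD j _ _ (hcom ρ hρ j) (fun f => ?_) (hρs j) (fun f g => ?_) fun ξ' hξ' f hf => ?_
      · rw [LinearMap.zero_apply, LinearMap.zero_apply, map_zero]
      · rw [LinearMap.zero_apply, LinearMap.zero_apply, map_zero, map_zero, LinearMap.zero_apply, add_zero]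
      · rw [LinearMap.zero_apply]
        exact hρ2 j ξ' hξ' (fun h2 => hj (Sigma.mk.inj_iff.mp h2).1) f hf
  · intro c c' hcc
    have hside : c.1 = c'.1 → (c'.2 : k) ≠ (c.2 : k) ∧ (c'.2 : k) ≠ (c.2 : k)⁻¹ := by
      obtain ⟨j, ξ', hξ'⟩ := c
      obtain ⟨j', ξ'', hξ''⟩ := c'
      intro hj
      have hj' : j = j' := hj
      subst hj'
      refine ⟨fun h2 => hcc ?_, fun h2 => ?_⟩
      · have h2' : ξ'' = ξ' := h2
        subst h2'
        rfl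
      · have h2' : ξ'' = ξ'⁻¹ := h2
        exact (hX j ξ' hξ').2 (by rw [← h2']; exact hξ'')
    obtain ⟨u₀, hu₀⟩ : ∃ u : KGY_E z X c, u ≠ 0 := by
      rcases hbig c.1 c.2 (hX c.1 c.2 c.2.2).1 with (⟨s, hs, a, b, ha, hb, hab, hsf⟩ | ⟨ε, e, γ, he, hεe, -⟩) |
        ⟨ε₁, ε₂, e₁, e₂, w, he₁, he₂, hfr, -⟩ | ⟨s, hs, hcop⟩
      · refine ⟨⟨a, Module.End.mem_eigenspace_iff.2 ha⟩, fun h0 => ?_⟩
        have h1 : a = 0 := congrArg Subtype.val h0
        rw [h1, map_zero, LinearMap.zero_apply] at hab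
        exact zero_ne_one hab
      · refine ⟨⟨e, Module.End.mem_eigenspace_iff.2 he⟩, fun h0 => ?_⟩
        have h1 : e = 0 := congrArg Subtype.val h0
        rw [h1, map_zero] at hεe
        exact zero_ne_one hεe
      · refine ⟨⟨e₁, Module.End.mem_eigenspace_iff.2 he₁⟩, fun h0 => ?_⟩
        have h1 : e₁ = 0 := congrArg Subtype.val h0
        have h2 := hfr.a11
        rw [h1, map_zero] at h2
        exact zero_ne_one h2
      · have hrk' : Module.finrank k (LinearMap.range (KGY_r z X s (hcom s hs.mem) c)) = rkE z s c.1 (c.2 : k) := KGY_rng z X s _ c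
        by_contra hno
        have h0 : Module.finrank k (KGY_E z X c) = 0 := by
          by_contra h1
          obtain ⟨u, hu⟩ := Module.finrank_pos_iff_exists_ne_zero.1 (Nat.pos_of_ne_zero h1)
          exact hno ⟨u, hu⟩
        have h1 := LinearMap.finrank_range_le (KGY_r z X s (hcom s hs.mem) c)
        rw [hrk', h0, Nat.le_zero] at h1
        have h2 : Nat.Coprime (rkE z s c.1 (c.2 : k)) (Module.finrank k (KGY_E z X c)) := hcop
        rw [h1, h0] at h2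
        exact absurd h2 (by decide)
    rcases hpair c.1 c'.1 c.2 c'.2 (hX c.1 c.2 c.2.2).1 (hX c'.1 c'.2 c'.2.2).1 hside with h1 | h1 | ⟨hA, hB'⟩
    · exact Or.inl h1
    · exact Or.inr (Or.inl h1)
    · refine Or.inr (Or.inr ⟨fun T hT => ?_, fun T hT => ?_⟩)
      · rcases hA with h1 | ⟨s, hs, h1⟩
        · exact (KGZ_a z X Gam hcG c c' u₀ hu₀ h1 T hT).elim
        · obtain ⟨h2, h3⟩ := KGY_H3 d z B F Q X hX hcov hpol s hs (hcom s hs.mem)
          refine ⟨KGY_r z X s (hcom s hs.mem), h2, h3, ?_⟩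
          rw [KGY_rng, KGY_ker, KGY_rng, KGY_ker]
          exact h1
      · rcases hB' with h1 | ⟨s, hs, h1⟩
        · exact (KGZ_b d z B F X hX Gam hG1 c c' u₀ hu₀ h1 T hT).elim
        · obtain ⟨h2, h3⟩ := KGY_H3 d z B F Q X hX hcov hpol s hs (hcom s hs.mem)
          refine ⟨KGY_r z X s (hcom s hs.mem), h2, h3, ?_⟩
          rw [KGY_rng, KGY_ker, KGY_rng, KGY_ker]
          exact h1

end

end Pool.Agent.TGA
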